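import Pool.Agent.H608R5.KL.Stm

set_option autoImplicit false

namespace Pool.Agent.TH547.KL

open Pool.Agent.H608R5.KL Finset

private theorem sum_four (g : ZMod 4 → ℝ) : ∑ d : ZMod 4, g d = g 0 + g 1 + g 2 + g 3 :=
  Fin.sum_univ_four g

private theorem sum_dlt {M : ℕ} (x : I M) : ∑ y, dlt x y = 1 := by
  simp [dlt]

private theorem sum_sam {M : ℕ} (x : I M) : ∑ y, sam x y = (M : ℝ) := by
  rw [Fintype.sum_prod_type, Fintype.sum_bool]
  obtain ⟨c, i⟩ := x
  cases c <;> simp [sam]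

private theorem sum_one {M : ℕ} : ∑ _y : I M, (1 : ℝ) = 2 * (M : ℝ) := by
  simp

private theorem dlt_comm {M : ℕ} (x y : I M) : dlt x y = dlt y x := by
  simp [dlt, eq_comm]

private theorem sam_comm {M : ℕ} (x y : I M) : sam x y = sam y x := by
  simp [sam, eq_comm]

private theorem T_comm {M : ℕ} (d : ZMod 4) (x y : I M) : T d x y = T d y x := by
  simp only [T, dlt_comm x y, sam_comm x y]

private theorem sumS {M : ℕ} (x : I M) : ∑ d : ZMod 4, ∑ y, S d x y * (-SS d) = 0 := by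
  have h01 : (1 : ZMod 4) ≠ 0 := by decide
  have h12 : (1 : ZMod 4) ≠ 2 := by decide
  have h20 : (2 : ZMod 4) ≠ 0 := by decide
  have h30 : (3 : ZMod 4) ≠ 0 := by decide
  have h32 : (3 : ZMod 4) ≠ 2 := by decide
  have h03 : (0 : ZMod 4) ≠ 3 := by decide
  have h31 : (3 : ZMod 4) ≠ 1 := by decide
  have h21 : (2 : ZMod 4) ≠ 1 := by decide
  have h23 : (2 : ZMod 4) ≠ 3 := by decide
  rw [sum_four]
  simp [S, SS, h01, h12, h20, h30, h32, h03, h31, h21, h23, h01.symm]

private theorem sumT {M : ℕ} (x : I M) :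
    ∑ d : ZMod 4, ∑ y, T d x y * (SS d * (2 * kp) + CC d * kp) = 0 := by
  have h01 : (1 : ZMod 4) ≠ 0 := by decide
  have h12 : (1 : ZMod 4) ≠ 2 := by decide
  have h13 : (1 : ZMod 4) ≠ 3 := by decide
  have h20 : (2 : ZMod 4) ≠ 0 := by decide
  have h30 : (3 : ZMod 4) ≠ 0 := by decide
  have h32 : (3 : ZMod 4) ≠ 2 := by decide
  have h03 : (0 : ZMod 4) ≠ 3 := by decide
  have h31 : (3 : ZMod 4) ≠ 1 := by decide
  have h21 : (2 : ZMod 4) ≠ 1 := by decide
  have h23 : (2 : ZMod 4) ≠ 3 := by decide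
  have e0 : ∑ y, T 0 x y * (SS 0 * (2 * kp) + CC 0 * kp) = 2 * M * kp := by
    rw [← Finset.sum_mul]
    have e : ∑ y, T 0 x y = 2 * (M : ℝ) := by
      rw [← sum_one (M := M)]
      exact Finset.sum_congr rfl fun y _ => by simp [T]
    rw [e]
    simp [SS, CC, h01.symm, h03]
  have e1 : ∑ y, T 1 x y * (SS 1 * (2 * kp) + CC 1 * kp) = (M - 1) * (2 * kp) := by
    rw [← Finset.sum_mul]
    have e : ∑ y, T 1 x y = (M : ℝ) - 1 := by
      rw [← sum_sam x, ← sum_dlt x, ← Finset.sum_sub_distrib]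
      exact Finset.sum_congr rfl fun y _ => by simp [T, h01, h13]
    rw [e]
    simp [SS, CC, h01, h12]
  have e2 : ∑ y, T 2 x y * (SS 2 * (2 * kp) + CC 2 * kp) = 0 := by
    apply Finset.sum_eq_zero
    intro y _
    simp [T, h20, h23, h21]
  have e3 : ∑ y, T 3 x y * (SS 3 * (2 * kp) + CC 3 * kp) = (2 * M - 1) * (-(2 * kp)) := by
    rw [← Finset.sum_mul]
    have e : ∑ y, T 3 x y = 2 * (M : ℝ) - 1 := by
      have e' : ∑ y, T 3 x y = (∑ _y : I M, (1 : ℝ)) - ∑ y, dlt x y := by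
        rw [← Finset.sum_sub_distrib]
        exact Finset.sum_congr rfl fun y _ => by simp [T, h30]
      rw [e', sum_one, sum_dlt]
    rw [e]
    simp [SS, CC, h30, h31, h32]
  rw [sum_four, e0, e1, e2, e3]
  ring

private theorem sameT (h : S_KT) {M : ℕ} (a : ZMod 4) (τ : Bool) (x : I M) :
    ∑ b : ZMod 4, ∑ y : I M,
      W (a, τ, x) (b, τ, y) * Real.sin (th (a, τ, x) - th (b, τ, y)) = 0 := by
  rw [← sumS x, ← Equiv.sum_comp (Equiv.subRight a) (fun d => ∑ y, S d x y * (-SS d))]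
  refine Finset.sum_congr rfl fun b _ => Finset.sum_congr rfl fun y _ => ?_
  rw [((h M a b x y).1 τ).2]
  simp [W]

private theorem diffAB (h : S_KT) {M : ℕ} (a : ZMod 4) (x : I M) :
    ∑ b : ZMod 4, ∑ y : I M,
      W (a, false, x) (b, true, y) * Real.sin (th (a, false, x) - th (b, true, y)) = 0 := by
  rw [← neg_eq_zero, ← Finset.sum_neg_distrib]
  rw [← sumT x, ← Equiv.sum_comp (Equiv.subRight a)
    (fun d => ∑ y, T d x y * (SS d * (2 * kp) + CC d * kp))]
  refine Finset.sum_congr rfl fun b _ => ?_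
  rw [← Finset.sum_neg_distrib]
  refine Finset.sum_congr rfl fun y _ => ?_
  rw [(h M a b x y).2.2.1]
  simp [W]
  ring

private theorem diffBA (h : S_KT) {M : ℕ} (a : ZMod 4) (x : I M) :
    ∑ b : ZMod 4, ∑ y : I M,
      W (a, true, x) (b, false, y) * Real.sin (th (a, true, x) - th (b, false, y)) = 0 := by
  rw [← sumT x, ← Equiv.sum_comp (Equiv.subLeft a)
    (fun d => ∑ y, T d x y * (SS d * (2 * kp) + CC d * kp))]
  refine Finset.sum_congr rfl fun b _ => Finset.sum_congr rfl fun y _ => ?_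
  rw [(h M a b x y).2.2.2.2]
  simp [W, T_comm _ y x]

theorem t_KE (h : S_KT) : S_KE := by
  intro M v
  obtain ⟨a, τ, x⟩ := v
  rw [Fintype.sum_prod_type]
  simp only [Fintype.sum_prod_type (α₁ := Bool) (α₂ := I M), Fintype.sum_bool,
    Finset.sum_add_distrib]
  cases τ
  · rw [diffAB h a x, sameT h a false x, add_zero]
  · rw [diffBA h a x, sameT h a true x, add_zero]

end Pool.Agent.TH547.KL
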