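import Pool.Agent.H608R5.KL.Stm

set_option autoImplicit false

namespace Pool.Agent.TH547.KL

open Pool.Agent.H608R5.KL Finset

private theorem k2_dlt {M : ℕ} (x : I M) : ∑ y, dlt x y = 1 := by
  simp [dlt]

private theorem k2_sam {M : ℕ} (x : I M) : ∑ y, sam x y = (M : ℝ) := by
  rw [Fintype.sum_prod_type, Fintype.sum_bool]
  obtain ⟨c, i⟩ := x
  cases c <;> simp [sam]

private theorem k2_dlt_comm {M : ℕ} (x y : I M) : dlt x y = dlt y x := by
  simp [dlt, eq_comm]

private theorem k2_sam_comm {M : ℕ} (x y : I M) : sam x y = sam y x := by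
  simp [sam, eq_comm]

private theorem k2_nn {M : ℕ} (x y : I M) : 0 ≤ sam x y - dlt x y := by
  unfold sam dlt
  by_cases h : x = y
  · simp [h]
  · simp only [h, if_false, sub_zero]
    split_ifs <;> norm_num

private theorem k2_mu {M : ℕ} (hM : 1 ≤ M) (A : I M → ℝ) : ∑ x, (A x - mu A) = 0 := by
  have hM' : (M : ℝ) ≠ 0 := by positivity
  rw [Finset.sum_sub_distrib, Finset.sum_const, mu]
  simp only [card_univ, Fintype.card_prod, Fintype.card_bool, Fintype.card_fin, nsmul_eq_mul]
  push_cast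
  field_simp
  ring

theorem t_K2 : S_K2 := by
  intro M hM A B
  set D : ℝ := mu A - mu B with hD
  have row : ∀ x : I M, ∑ y, (sam x y - dlt x y) = (M : ℝ) - 1 := by
    intro x
    rw [Finset.sum_sub_distrib, k2_sam, k2_dlt]
  have col : ∀ y : I M, ∑ x, (sam x y - dlt x y) = (M : ℝ) - 1 := by
    intro y
    rw [← row y]
    exact Finset.sum_congr rfl fun x _ => by rw [k2_sam_comm, k2_dlt_comm]
  have hA := k2_mu hM A
  have hB := k2_mu hM B
  have h1 : (∑ x, ∑ y, (sam x y - dlt x y) * (A x - B y) ^ 2) ≤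
      ∑ x, ∑ y, ((sam x y - dlt x y) * (D ^ 2 + 2 * D * (A x - mu A) + 2 * (A x - mu A) ^ 2)
        + (sam x y - dlt x y) * (-(2 * D) * (B y - mu B) + 2 * (B y - mu B) ^ 2)) := by
    refine Finset.sum_le_sum fun x _ => Finset.sum_le_sum fun y _ => ?_
    have hw := k2_nn x y
    rw [← mul_add]
    apply mul_le_mul_of_nonneg_left _ hw
    have e : A x - B y = D + (A x - mu A) - (B y - mu B) := by rw [hD]; ring
    rw [e]
    nlinarith [sq_nonneg ((A x - mu A) + (B y - mu B))]
  refine h1.trans (le_of_eq ?_)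
  simp only [Finset.sum_add_distrib]
  have h2 : ∑ x, ∑ y, (sam x y - dlt x y) *
      (D ^ 2 + 2 * D * (A x - mu A) + 2 * (A x - mu A) ^ 2)
      = (M - 1) * (2 * M * D ^ 2 + 2 * vr A) := by
    have e : ∀ x : I M, ∑ y, (sam x y - dlt x y) *
        (D ^ 2 + 2 * D * (A x - mu A) + 2 * (A x - mu A) ^ 2)
        = (M - 1) * (D ^ 2 + 2 * D * (A x - mu A) + 2 * (A x - mu A) ^ 2) := by
      intro x
      rw [← Finset.sum_mul, row x]
    rw [Finset.sum_congr rfl fun x _ => e x, ← Finset.mul_sum, Finset.sum_add_distrib,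
      Finset.sum_add_distrib, ← Finset.mul_sum, ← Finset.mul_sum, hA, Finset.sum_const]
    simp only [card_univ, Fintype.card_prod, Fintype.card_bool, Fintype.card_fin, nsmul_eq_mul, vr]
    push_cast
    ring
  have h3 : ∑ x, ∑ y, (sam x y - dlt x y) * (-(2 * D) * (B y - mu B) + 2 * (B y - mu B) ^ 2)
      = (M - 1) * (2 * vr B) := by
    rw [Finset.sum_comm]
    have e : ∀ y : I M, ∑ x, (sam x y - dlt x y) *
        (-(2 * D) * (B y - mu B) + 2 * (B y - mu B) ^ 2)
        = (M - 1) * (-(2 * D) * (B y - mu B) + 2 * (B y - mu B) ^ 2) := by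
      intro y
      rw [← Finset.sum_mul, col y]
    rw [Finset.sum_congr rfl fun y _ => e y, ← Finset.mul_sum, Finset.sum_add_distrib,
      ← Finset.mul_sum, ← Finset.mul_sum, hB]
    simp only [vr]
    ring
  rw [h2, h3]
  ring

end Pool.Agent.TH547.KL
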